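import Pool.Agent.Helper68.VN.GoalsT
import Pool.Agent.Helper42.SG.GoalsT
import Pool.Agent.Helper42.SG.GoalsB
import Pool.Agent.Helper53.SGT.LAWC

/-!
# Packet PG-LAWB (MP_a41896_nt): change of the laws at a minimal coefficient
-/

set_option autoImplicit false

open MvPolynomial

namespace Pool.Agent.Helper55.VN.LAWB

open WeierstrassCurve Height
open Pool.Agent.Helper29.BL Pool.Agent.Helper92.Ru Pool.Agent.Helper42.SG
open Pool.Agent.Helper53.SGT (map_law)
open Pool.Agent.Helper68.VN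

theorem cc_alg {K : Type} [Field K] {τ : Type} (x : K) :
    MvPowerSeries.constantCoeff (algebraMap K (MvPowerSeries τ K) x) = x := by
  rw [MvPowerSeries.algebraMap_apply]
  simp

theorem t_LAWB (hR : RPOL) (hM : MINC) : Pool.Agent.Helper68.VN.LAWB := by
  intro K _ _ σ _ _ W n M δ e c ξ ψ ω x0 ψ0 X Ψ d α lam hT hψ0 hd hne hω hmin
  let S : Type := MvPowerSeries (Fin n × σ) K
  let cc : S →+* K := MvPowerSeries.constantCoeff
  have hc0 : ∀ x : K, cc (algebraMap K S x) = x := fun x => cc_alg x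
  have hX : ∀ j i, cc (X j i) = ξ j i := by
    intro j i
    have h := hT.eqX j i
    show MvPowerSeries.constantCoeff (X j i) = ξ j i
    rw [h]
    simp
  have hΨ : ∀ j i, cc (Ψ j i) = ψ j i := hT.cst
  have hW : ∀ i, (mapS S W i).map cc = mapS K W i := by
    intro i
    refine WeierstrassCurve.ext ?_ ?_ ?_ ?_ ?_
    · exact hc0 _
    · exact hc0 _
    · exact hc0 _
    · exact hc0 _
    · exact hc0 _
  let lw : Bool → Fin n → σ → S × S := fun b j i =>
    law (mapS S W i) (e j) b (X j i) (cn S x0 i) (Ψ j i * cn S ψ0 i)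
  have hlaw : ∀ (b : Bool) j i,
      cc (lw b j i).1 = (lawP W e b ξ ψ x0 ψ0 j i).1 ∧
      cc (lw b j i).2 = (lawP W e b ξ ψ x0 ψ0 j i).2 := by
    intro b j i
    have h1 := map_law cc (mapS S W i) (e j) b (X j i) (cn S x0 i) (Ψ j i * cn S ψ0 i)
    have h2 : cc (cn S x0 i) = x0 i := hc0 _
    have h3 : cc (cn S ψ0 i) = ψ0 i := hc0 _
    rw [hW, map_mul, hX, hΨ, h2, h3] at h1
    exact h1
  have hBf : ∀ i (x : K), algebraMap K S (Bf (W i) x) = Bf (mapS S W i) (algebraMap K S x) := by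
    intro i x
    simp only [Bf, mapS, map_add, map_mul, map_pow, WeierstrassCurve.map_b₂,
      WeierstrassCurve.map_b₄, WeierstrassCurve.map_b₆, map_ofNat]
  have hrel : ∀ j i, (lw false j i).1 * (lw true j i).2 = (lw false j i).2 * (lw true j i).1 := by
    intro j i
    refine (hR S (mapS S W i)).2.2 (e j) (X j i) (cn S x0 i) _ ?_
    have e1 := hT.on j i
    have e2 : cn S ψ0 i ^ 2 = Bf (mapS S W i) (cn S x0 i) := by
      show (algebraMap K S (ψ0 i)) ^ 2 = Bf (mapS S W i) (algebraMap K S (x0 i))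
      rw [← map_pow, hψ0 i, hBf]
    rw [mul_pow, e1, e2]
  have hrat : ∀ j i, ∃ ρ : S, (lw true j i).1 = ρ * (lw false j i).1 ∧
      (lw true j i).2 = ρ * (lw false j i).2 ∧ cc ρ = ω j i := by
    intro j i
    set a := lw false j i with ha
    set b := lw true j i with hb
    obtain ⟨c1, c2⟩ := hlaw false j i
    obtain ⟨d1, d2⟩ := hlaw true j i
    rw [← ha] at c1 c2
    rw [← hb] at d1 d2
    obtain ⟨w1, w2⟩ := hω j i
    rw [← d1, ← c1] at w1
    rw [← d2, ← c2] at w2
    have hab : a.1 * b.2 = a.2 * b.1 := hrel j i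
    rcases hne j i with hz | hz
    · rw [← c1] at hz
      have hu : a.1 * a.1⁻¹ = 1 := MvPowerSeries.mul_inv_cancel _ hz
      refine ⟨b.1 * a.1⁻¹, ?_, ?_, ?_⟩
      · rw [mul_assoc, mul_comm a.1⁻¹, hu, mul_one]
      · calc b.2 = (a.1 * a.1⁻¹) * b.2 := by rw [hu, one_mul]
          _ = a.1⁻¹ * (a.1 * b.2) := by ring
          _ = b.1 * a.1⁻¹ * a.2 := by rw [hab]; ring
      · have h1 : cc (b.1 * a.1⁻¹) * cc a.1 = ω j i * cc a.1 := by
          rw [← map_mul, mul_assoc, mul_comm a.1⁻¹, hu, mul_one, w1]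
        exact mul_right_cancel₀ hz h1
    · rw [← c2] at hz
      have hu : a.2 * a.2⁻¹ = 1 := MvPowerSeries.mul_inv_cancel _ hz
      refine ⟨b.2 * a.2⁻¹, ?_, ?_, ?_⟩
      · calc b.1 = (a.2 * a.2⁻¹) * b.1 := by rw [hu, one_mul]
          _ = a.2⁻¹ * (a.2 * b.1) := by ring
          _ = b.2 * a.2⁻¹ * a.1 := by rw [← hab]; ring
      · rw [mul_assoc, mul_comm a.2⁻¹, hu, mul_one]
      · have h1 : cc (b.2 * a.2⁻¹) * cc a.2 = ω j i * cc a.2 := by
          rw [← map_mul, mul_assoc, mul_comm a.2⁻¹, hu, mul_one, w2]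
        exact mul_right_cancel₀ hz h1
  choose ρ hρ1 hρ2 hρ3 using hrat
  let g : Fin n → σ → S := fun j i => if lam j i = true then ρ j i ^ M else 1
  have hg : ∀ j i (l : ℕ) (m : ℕ), m ≤ M →
      X j i ^ l * ((lw (lam j i) j i).1 ^ (M - m) * (lw (lam j i) j i).2 ^ m) =
        X j i ^ l * ((lw false j i).1 ^ (M - m) * (lw false j i).2 ^ m) * g j i := by
    intro j i l m hm
    cases hl : lam j i
    · have hgh : g j i = 1 := by simp [g, hl]
      rw [hgh, mul_one]
    · have hgh : g j i = ρ j i ^ M := by simp [g, hl]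
      rw [hgh, hρ1 j i, hρ2 j i, mul_pow, mul_pow]
      have h2 : ρ j i ^ M = ρ j i ^ (M - m) * ρ j i ^ m := by
        rw [← pow_add]
        congr 1
        omega
      rw [h2]
      ring
  have hP : PT W n M δ e c lam X Ψ x0 ψ0 =
      PT W n M δ e c (fun _ _ => false) X Ψ x0 ψ0 * ∏ j, ∏ i, g j i := by
    unfold PT PB
    rw [Finset.sum_mul]
    refine Finset.sum_congr rfl fun β _ => ?_
    have h1 : (∏ j, blkB (mapS S W) M (e j) (lam j) (X j) (Ψ j) (cn S x0) (cn S ψ0) (β.1 j)) =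
        (∏ j, blkB (mapS S W) M (e j) (fun _ => false) (X j) (Ψ j) (cn S x0) (cn S ψ0) (β.1 j)) *
          ∏ j, ∏ i, g j i := by
      rw [← Finset.prod_mul_distrib]
      refine Finset.prod_congr rfl fun j _ => ?_
      unfold blkB
      rw [← Finset.prod_mul_distrib]
      refine Finset.prod_congr rfl fun i _ => ?_
      exact hg j i _ _ (Nat.lt_succ_iff.1 (β.1 j i).2.isLt)
    rw [h1]
    ring
  have hcg : cc (∏ j, ∏ i, g j i) = ∏ j, ∏ i, if lam j i = true then ω j i ^ M else 1 := by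
    rw [map_prod]
    refine Finset.prod_congr rfl fun j _ => ?_
    rw [map_prod]
    refine Finset.prod_congr rfl fun i _ => ?_
    cases hl : lam j i
    · simp [g, hl]
    · have hgh : g j i = ρ j i ^ M := by simp [g, hl]
      rw [hgh, map_pow, hρ3 j i]
      simp
  rw [hP, (hM K (Fin n × σ) d _ _ α hd hmin).1]
  rw [← hcg]

end Pool.Agent.Helper55.VN.LAWB
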